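import Pool.Agent.V11324.OrbitSpan

set_option autoImplicit false

/-! Orbit spans of functions that converge along random walks. -/

namespace Pool.Agent.Results.MP_0b4a43_pr.OrbitSpanInfinite

open MeasureTheory ProbabilityTheory Filter Topology Pool.Agent.V11324.OrbitSpan

/-- **Theorem.** Let `G` be any topological group, `μ` a symmetric adapted Borel probability
measure, `U 0, U 1, ...` independent with law `μ` and `X t = U 0 * ... * U (t - 1)`. If `f` is
continuous and not constant and, for every `x`, the sequence `f (x * X t)` converges almost surely,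
then the span of the translates `y ↦ f (γ⁻¹ * y)` is infinite dimensional. -/
theorem result {G : Type*} [Group G] [TopologicalSpace G] [IsTopologicalGroup G]
    [MeasurableSpace G] [BorelSpace G] (μ : Measure G) [IsProbabilityMeasure μ]
    (hadapted : ∀ H : Subgroup G, IsClosed (H : Set G) → H ≠ ⊤ → μ (H : Set G) < 1)
    (hsymm : ∀ A : Set G, MeasurableSet A → μ A⁻¹ = μ A)
    {Ω : Type*} [MeasurableSpace Ω] (P : Measure Ω) [IsProbabilityMeasure P] (U : ℕ → Ω → G)
    (hU : ∀ t, Measurable (U t)) (hi : iIndepFun U P) (hlaw : ∀ t, P.map (U t) = μ)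
    (f : G → ℝ) (hf : Continuous f)
    (hconv : ∀ x, ∀ᵐ ω ∂P, ∃ l, Tendsto (fun t => f (x * walk U t ω)) atTop (𝓝 l))
    (hne : ∃ x y, f x ≠ f y) : ¬ FiniteDimensional ℝ (orbitSpan f) := by
  intro hfin
  have hs : μ.map (fun g => g⁻¹) = μ := by
    ext A hA
    rw [Measure.map_apply measurable_inv hA]
    exact hsymm A hA
  have ha : ∀ H : Subgroup G, IsClosed (H : Set G) → μ (H : Set G)ᶜ = 0 → H = ⊤ := by
    intro H hH h0
    by_contra hT
    have h1 := hadapted H hH hT
    rw [(prob_compl_eq_zero_iff hH.measurableSet).1 h0] at h1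
    exact lt_irrefl _ h1
  have h := constant hU hi hlaw hs ha f hf hconv hfin
  obtain ⟨x, y, hxy⟩ := hne
  exact hxy ((h x).trans (h y).symm)

end Pool.Agent.Results.MP_0b4a43_pr.OrbitSpanInfinite
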